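import Mathlib

set_option autoImplicit false

namespace Pool.Agent.Results.MP_5b71d7_co.Frankl

open Finset

/-- union-closed family over the ground set: no empty member, contains the ground set -/
def UC {n : ℕ} (F : Set (Finset (Fin n))) : Prop :=
  ∅ ∉ F ∧ univ ∈ F ∧ ∀ A ∈ F, ∀ B ∈ F, A ∪ B ∈ F

/-- the closure of a family -/
def cl {n : ℕ} (F : Set (Finset (Fin n))) : Set (Finset (Fin n)) :=
  {A | A.Nonempty ∧ UC (insert A F)}

lemma up_of {n : ℕ} (F : Set (Finset (Fin n))) (hF : UC F) (h : cl (cl F) = {A | A.Nonempty})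
    {A₁ A₂ B : Finset (Fin n)} (h1 : A₁ ∈ F) (h2 : A₂ ∈ F) (h12 : A₁ ⊂ A₂) (hB : A₂ ⊆ B) :
    B ∈ F := by
  have hne : A₁.Nonempty := nonempty_iff_ne_empty.2 fun e => hF.1 (e ▸ h1)
  have hc1 : A₁ ∈ cl F := ⟨hne, by rw [Set.insert_eq_of_mem h1]; exact hF⟩
  rcases (B \ A₂).eq_empty_or_nonempty with he | hD
  · have : B = A₂ := Subset.antisymm (sdiff_eq_empty_iff_subset.1 he) hB
    exact this ▸ h2
  have hD' : B \ A₂ ∈ cl (cl F) := by rw [h]; exact hD
  have hX := hD'.2.2.2 A₁ (Or.inr hc1) (B \ A₂) (Or.inl rfl)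
  obtain ⟨x, hx⟩ := hne
  rcases hX with hX | hX
  · have : x ∈ B \ A₂ := hX ▸ mem_union_left _ hx
    exact absurd (h12.1 hx) (mem_sdiff.1 this).2
  have hY := hX.2.2.2 _ (Or.inl rfl) A₂ (Or.inr h2)
  have e : A₁ ∪ B \ A₂ ∪ A₂ = B := by
    ext y
    have a1 := @h12.1 y
    have a2 := @hB y
    simp only [mem_union, mem_sdiff]
    tauto
  rw [e] at hY
  rcases hY with hY | hY
  · obtain ⟨y, hy, hy'⟩ := exists_of_ssubset h12
    have : y ∈ A₁ ∪ B \ A₂ := hY ▸ hB hy
    simp only [mem_union, mem_sdiff] at this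
    tauto
  · exact hY

def bd {n : ℕ} (U : Finset (Finset (Fin n))) (A : Finset (Fin n)) :
    Finset (Finset (Fin n) × Fin n) :=
  univ.filter fun p => A ⊆ p.1 ∧ p.1 ∉ U ∧ p.2 ∉ p.1 ∧ insert p.2 p.1 ∈ U

lemma bd_card {n : ℕ} (U : Finset (Finset (Fin n))) (hU : univ ∈ U) (k : ℕ) :
    ∀ A : Finset (Fin n), #Aᶜ = k → A ∉ U → k ≤ #(bd U A) := by
  induction k with
  | zero => intros; omega
  | succ k ih =>
    intro A hk hA
    by_cases hall : ∀ j, j ∉ A → insert j A ∈ U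
    · rw [← hk]
      refine card_le_card_of_injOn (fun j => (A, j)) (fun j hj => ?_) fun a _ b _ e => ?_
      · have hj' : j ∉ A := by simpa using hj
        simp [bd, hA, hj', hall j hj']
      · exact (Prod.ext_iff.1 e).2
    push Not at hall
    obtain ⟨i, hi, hiU⟩ := hall
    have h1 := ih (insert i A) (by
      rw [compl_insert, card_erase_of_mem (mem_compl.2 hi), hk]; rfl) hiU
    obtain ⟨B, hB, hmax⟩ := exists_max_image
      (univ.filter fun B : Finset (Fin n) => A ⊆ B ∧ i ∉ B ∧ B ∉ U) card ⟨A, by simp [hi, hA]⟩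
    simp only [mem_filter, mem_univ, true_and] at hB hmax
    have hex : ∃ j, j ∉ B ∧ insert j B ∈ U := by
      by_cases hj : ∃ j, j ∉ B ∧ j ≠ i
      · obtain ⟨j, hj, hji⟩ := hj
        refine ⟨j, hj, ?_⟩
        by_contra hc
        have := hmax (insert j B) ⟨hB.1.trans (subset_insert _ _), by simp [hB.2.1, hji.symm], hc⟩
        rw [card_insert_of_notMem hj] at this
        omega
      · push Not at hj
        refine ⟨i, hB.2.1, ?_⟩
        convert hU
        ext y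
        simp only [mem_insert, mem_univ, iff_true]
        by_contra hc
        push Not at hc
        exact hc.1 (hj y hc.2)
    obtain ⟨j, hj, hjU⟩ := hex
    have h2 : insert (B, j) (bd U (insert i A)) ⊆ bd U A := by
      intro p hp
      rcases mem_insert.1 hp with rfl | hp
      · simp [bd, hB.1, hB.2.2, hj, hjU]
      · simp only [bd, mem_filter, mem_univ, true_and] at hp ⊢
        exact ⟨(subset_insert _ _).trans hp.1, hp.2⟩
    have h3 : (B, j) ∉ bd U (insert i A) := by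
      simp only [bd, mem_filter, mem_univ, true_and, not_and]
      intro h
      exact absurd (h (mem_insert_self _ _)) hB.2.1
    have := card_le_card h2
    rw [card_insert_of_notMem h3] at this
    omega

lemma avg {n : ℕ} (F : Finset (Finset (Fin n))) (hu : ∀ A ∈ F, ∀ B ∈ F, A ∪ B ∈ F)
    (htop : univ ∈ F)
    (hup : ∀ A₁ ∈ F, ∀ A₂ ∈ F, ∀ B, A₁ ⊂ A₂ → A₂ ⊆ B → B ∈ F) :
    ∑ A ∈ F, #Aᶜ ≤ ∑ A ∈ F, #A := by
  let U := F.filter fun A => ∃ B ∈ F, B ⊂ A
  have hUup : ∀ A ∈ U, ∀ C, A ⊆ C → C ∈ U := by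
    intro A hA C hC
    obtain ⟨hA, B, hB, hBA⟩ := mem_filter.1 hA
    exact mem_filter.2 ⟨hup B hB A hA C hBA hC, B, hB, hBA.trans_subset hC⟩
  by_cases hU : univ ∈ U
  swap
  · have : ∀ A ∈ F, A = univ := fun A hA => by
      by_contra hc
      exact hU (mem_filter.2 ⟨htop, A, hA, ssubset_univ_iff.2 hc⟩)
    rw [sum_eq_zero fun A hA => by rw [this A hA]; simp]
    exact Nat.zero_le _
  let T : Finset (Fin n) → Finset (Finset (Fin n) × Fin n) := fun A =>
    if A ∈ U then Aᶜ.image fun j => (A, j) else bd U A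
  have hT : ∀ A ∈ F, #Aᶜ ≤ #(T A) := by
    intro A _
    simp only [T]
    split_ifs with h
    · rw [card_image_of_injective _ fun a b e => (Prod.ext_iff.1 e).2]
    · exact bd_card U hU _ A rfl h
  have hT1 : ∀ A, ∀ p ∈ T A, A ⊆ p.1 ∧ p.2 ∉ p.1 ∧ insert p.2 p.1 ∈ U ∧ (A ∈ U → p.1 = A) ∧
      (A ∉ U → p.1 ∉ U) := by
    intro A p hp
    simp only [T] at hp
    split_ifs at hp with h
    · obtain ⟨j, hj, rfl⟩ := mem_image.1 hp
      exact ⟨Subset.rfl, mem_compl.1 hj, hUup A h _ (subset_insert _ _), fun _ => rfl,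
        fun h' => absurd h h'⟩
    · simp only [bd, mem_filter, mem_univ, true_and] at hp
      exact ⟨hp.1, hp.2.2.1, hp.2.2.2, fun h' => absurd h' h, fun _ => hp.2.1⟩
  have hdis : (F : Set (Finset (Fin n))).PairwiseDisjoint T := by
    intro A hA B hB hAB
    rw [Function.onFun, disjoint_left]
    intro p hp hq
    obtain ⟨a1, -, -, a4, a5⟩ := hT1 A p hp
    obtain ⟨b1, -, -, b4, b5⟩ := hT1 B p hq
    by_cases hAU : A ∈ U
    · by_cases hBU : B ∈ U
      · exact hAB ((a4 hAU).symm.trans (b4 hBU))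
      · exact b5 hBU (hUup A hAU _ a1)
    · refine a5 hAU (hUup (A ∪ B) (mem_filter.2 ⟨hu A hA B hB, A, hA, ?_⟩) _ (union_subset a1 b1))
      refine Finset.ssubset_iff_subset_ne.2 ⟨subset_union_left, fun e => hAU ?_⟩
      refine mem_filter.2 ⟨hA, B, hB, Finset.ssubset_iff_subset_ne.2 ⟨?_, hAB.symm⟩⟩
      rw [e]; exact subset_union_right
  calc ∑ A ∈ F, #Aᶜ ≤ ∑ A ∈ F, #(T A) := sum_le_sum hT
    _ = #(F.biUnion T) := (card_biUnion hdis).symm
    _ ≤ #(F.sigma fun A => A) := by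
      refine card_le_card_of_injOn (fun p => ⟨insert p.2 p.1, p.2⟩) (fun p hp => ?_)
        fun p hp q hq e => ?_
      · obtain ⟨A, -, hp⟩ := mem_biUnion.1 hp
        exact mem_sigma.2 ⟨(mem_filter.1 (hT1 A p hp).2.2.1).1, mem_insert_self _ _⟩
      · obtain ⟨A, -, hp⟩ := mem_biUnion.1 hp
        obtain ⟨B, -, hq⟩ := mem_biUnion.1 hq
        obtain ⟨e1, e2⟩ := Sigma.mk.inj_iff.1 e
        have e2 : p.2 = q.2 := eq_of_heq e2
        refine Prod.ext ?_ e2
        rw [← erase_insert (hT1 A p hp).2.1, ← erase_insert (hT1 B q hq).2.1, e1, e2]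
    _ = ∑ A ∈ F, #A := card_sigma _ _

theorem result (n : ℕ) (F : Set (Finset (Fin n))) (hF : UC F)
    (h : cl (cl F) = {A | A.Nonempty}) :
    ∃ i : Fin n, F.ncard ≤ 2 * {A ∈ F | i ∈ A}.ncard := by
  classical
  obtain ⟨G, rfl⟩ : ∃ G : Finset (Finset (Fin n)), F = G := ⟨F.toFinset, by simp⟩
  have key := avg G (fun A hA B hB => hF.2.2 A hA B hB) hF.2.1
    fun A₁ h1 A₂ h2 B h12 hB => up_of _ hF h h1 h2 h12 hB
  have hn : (univ : Finset (Fin n)).Nonempty :=
    nonempty_iff_ne_empty.2 fun e => hF.1 (e ▸ hF.2.1)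
  by_contra hc
  push Not at hc
  have e1 : ∀ i, {A ∈ (G : Set (Finset (Fin n))) | i ∈ A}.ncard = #(G.filter fun A => i ∈ A) := by
    intro i
    rw [← Set.ncard_coe_finset, coe_filter]; rfl
  simp only [e1, Set.ncard_coe_finset] at hc
  have e2 : ∑ i, #(G.filter fun A => i ∈ A) = ∑ A ∈ G, #A := by
    simp only [card_filter]
    rw [sum_comm]
    simp
  have e3 : ∑ A ∈ G, #Aᶜ + ∑ A ∈ G, #A = n * #G := by
    rw [← sum_add_distrib, sum_congr rfl fun A _ => (card_compl_add_card A)]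
    simp [mul_comm]
  have e4 := sum_lt_sum_of_nonempty hn fun i _ => hc i
  rw [← mul_sum, e2] at e4
  simp only [sum_const, card_univ, Fintype.card_fin, smul_eq_mul] at e4
  omega

end Pool.Agent.Results.MP_5b71d7_co.Frankl
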